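import Mathlib
import Pool.Agent.H470R3.Edmonds

set_option autoImplicit false

namespace Pool.Agent.Results.MP_93593e_co.ArcBound

variable {V : Type} [Fintype V] [DecidableEq V]

/-- The digraph with arc set `A` is strongly connected. -/
def Strong (A : Finset (V × V)) : Prop :=
  ∀ u v : V, Relation.ReflTransGen (fun x y => (x, y) ∈ A) u v

/-- The underlying simple graph. -/
def Und (A : Finset (V × V)) : SimpleGraph V where
  Adj x y := x ≠ y ∧ ((x, y) ∈ A ∨ (y, x) ∈ A)
  symm := ⟨fun _ _ h => ⟨h.1.symm, h.2.symm⟩⟩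
  loopless := ⟨fun _ h => h.1 rfl⟩

/-- Connected, and deleting any single vertex leaves a connected graph. -/
def Biconnected (G : SimpleGraph V) : Prop :=
  G.Connected ∧ ∀ w : V, (G.induce {w}ᶜ).Connected

/-- Strongly biconnected digraphs. -/
def StronglyBiconnected (A : Finset (V × V)) : Prop :=
  Strong A ∧ Biconnected (Und A)

/-- 2-edge-strongly biconnected digraphs. -/
def TwoEdgeSB (A : Finset (V × V)) : Prop :=
  StronglyBiconnected A ∧ 3 ≤ Fintype.card V ∧ ∀ e ∈ A, StronglyBiconnected (A.erase e)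

/-- Minimal 2-edge-strongly biconnected digraphs. -/
def MinimalTwoEdgeSB (A : Finset (V × V)) : Prop :=
  TwoEdgeSB A ∧ ∀ e ∈ A, ¬ TwoEdgeSB (A.erase e)

/-- Reachability in the underlying graph avoiding `w`. -/
def R (A : Finset (V × V)) (w : V) : V → V → Prop :=
  Relation.ReflTransGen (fun a b => a ≠ w ∧ b ≠ w ∧ ((a, b) ∈ A ∨ (b, a) ∈ A))

theorem pre_iff (A : Finset (V × V)) (hl : ∀ v, (v, v) ∉ A) (w : V) :
    ((Und A).induce {w}ᶜ).Preconnected ↔ ∀ x y : V, x ≠ w → y ≠ w → R A w x y := by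
  constructor
  · intro h x y hx hy
    have h1 := h ⟨x, hx⟩ ⟨y, hy⟩
    rw [SimpleGraph.reachable_iff_reflTransGen] at h1
    have key : ∀ z : ({w}ᶜ : Set V),
        Relation.ReflTransGen ((Und A).induce {w}ᶜ).Adj ⟨x, hx⟩ z → R A w x z.1 := by
      intro z hz
      induction hz with
      | refl => exact Relation.ReflTransGen.refl
      | @tail b c _ hbc ih => exact ih.tail ⟨b.2, c.2, hbc.2⟩
    exact key _ h1
  · intro h x y
    have h1 := h x.1 y.1 x.2 y.2
    have key : ∀ z : V, R A w x.1 z → ∀ hz : z ≠ w,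
        ((Und A).induce ({w}ᶜ : Set V)).Reachable x ⟨z, hz⟩ := by
      intro z hz
      induction hz with
      | refl => intro _; exact SimpleGraph.Reachable.refl _
      | @tail b c _ hbc ih =>
        intro hc
        refine (ih hbc.1).trans (SimpleGraph.Adj.reachable ?_)
        refine ⟨?_, hbc.2.2⟩
        intro hbc'
        change b = c at hbc'
        rcases hbc.2.2 with h | h
        · exact hl _ (hbc' ▸ h)
        · exact hl _ (hbc' ▸ h)
    exact key y.1 h1 y.2

theorem sb_iff (A : Finset (V × V)) (hl : ∀ v, (v, v) ∉ A) (hn : 3 ≤ Fintype.card V) :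
    StronglyBiconnected A ↔ Strong A ∧ ∀ w x y : V, x ≠ w → y ≠ w → R A w x y := by
  constructor
  · rintro ⟨h1, h2, h3⟩
    exact ⟨h1, fun w => (pre_iff A hl w).1 (h3 w).preconnected⟩
  · rintro ⟨h1, h2⟩
    refine ⟨h1, ?_, ?_⟩
    · have : Nonempty V := Fintype.card_pos_iff.1 (by omega)
      refine ⟨fun x y => ?_⟩
      have key : ∀ z, Relation.ReflTransGen (fun x y => (x, y) ∈ A) x z →
          (Und A).Reachable x z := by
        intro z hz
        induction hz with
        | refl => exact SimpleGraph.Reachable.refl _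
        | @tail b c _ hbc ih =>
          refine ih.trans (SimpleGraph.Adj.reachable ⟨?_, Or.inl hbc⟩)
          rintro rfl
          exact hl _ hbc
      exact key y (h1 x y)
    · intro w
      obtain ⟨y, hy⟩ := Fintype.exists_ne_of_one_lt_card (by omega : 1 < Fintype.card V) w
      have : Nonempty ({w}ᶜ : Set V) := ⟨⟨y, hy⟩⟩
      exact ⟨(pre_iff A hl w).2 (h2 w)⟩

theorem R_mono {A B : Finset (V × V)} (hAB : A ⊆ B) (w : V) {x y : V} (h : R A w x y) :
    R B w x y := by
  exact Relation.ReflTransGen.mono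
    (fun a b h => ⟨h.1, h.2.1, h.2.2.imp (fun h => hAB h) (fun h => hAB h)⟩) _ _ h

theorem strong_mono {A B : Finset (V × V)} (hAB : A ⊆ B) (h : Strong A) : Strong B :=
  fun x y => Relation.ReflTransGen.mono (fun _ _ h => hAB h) _ _ (h x y)

/-- The arcs of `K` avoiding `x` and crossing `S`. -/
def cr (K : Finset (V × V)) (x : V) (S : Finset V) : Finset (V × V) :=
  K.filter fun f => f.1 ≠ x ∧ f.2 ≠ x ∧ ((f.1 ∈ S ∧ f.2 ∉ S) ∨ (f.1 ∉ S ∧ f.2 ∈ S))

theorem mem_cr {K : Finset (V × V)} {x : V} {S : Finset V} {f : V × V} :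
    f ∈ cr K x S ↔ f ∈ K ∧ f.1 ≠ x ∧ f.2 ≠ x ∧ ((f.1 ∈ S ∧ f.2 ∉ S) ∨ (f.1 ∉ S ∧ f.2 ∈ S)) := by
  simp [cr]

/-- Every vertex-deleted multigraph is 2-edge-connected. -/
def P (K : Finset (V × V)) : Prop :=
  ∀ (x : V) (S : Finset V), x ∉ S → S.Nonempty → (∃ y, y ≠ x ∧ y ∉ S) → 2 ≤ (cr K x S).card

theorem exists_cr {K : Finset (V × V)} {x : V} {S : Finset V} {a b : V} (h : R K x a b)
    (ha : a ∈ S) (hb : b ∉ S) : ∃ f, f ∈ cr K x S := by
  by_contra hc
  push Not at hc
  have key : ∀ c, R K x a c → c ∈ S := by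
    intro c hac
    induction hac with
    | refl => exact ha
    | @tail c d _ hcd ih =>
      by_contra hd
      rcases hcd.2.2 with h | h
      · exact hc (c, d) (mem_cr.2 ⟨h, hcd.1, hcd.2.1, Or.inl ⟨ih, hd⟩⟩)
      · exact hc (d, c) (mem_cr.2 ⟨h, hcd.2.1, hcd.1, Or.inr ⟨hd, ih⟩⟩)
  exact hb (key b h)

theorem P_of {A : Finset (V × V)} (h0 : ∀ w x y : V, x ≠ w → y ≠ w → R A w x y)
    (h1 : ∀ e ∈ A, ∀ w x y : V, x ≠ w → y ≠ w → R (A.erase e) w x y) : P A := by
  rintro x S hx ⟨a, ha⟩ ⟨b, hbx, hb⟩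
  have hax : a ≠ x := fun h => hx (h ▸ ha)
  obtain ⟨f, hf⟩ := exists_cr (h0 x a b hax hbx) ha hb
  have hfA := (mem_cr.1 hf).1
  obtain ⟨g, hg⟩ := exists_cr (h1 f hfA x a b hax hbx) ha hb
  rw [mem_cr, Finset.mem_erase] at hg
  exact Finset.one_lt_card.2 ⟨f, hf, g, mem_cr.2 ⟨hg.1.2, hg.2⟩, Ne.symm hg.1.1⟩

theorem R_of_P {K : Finset (V × V)} (h : P K) (e : V × V) (x a b : V) (ha : a ≠ x)
    (hb : b ≠ x) : R (K.erase e) x a b := by
  classical
  by_contra hc
  set S : Finset V := Finset.univ.filter (fun c => R (K.erase e) x a c) with hS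
  have hxS : x ∉ S := by
    intro hx
    simp only [hS, Finset.mem_filter, Finset.mem_univ, true_and] at hx
    rcases Relation.ReflTransGen.cases_tail hx with h | ⟨c, _, h⟩
    · exact ha h.symm
    · exact h.2.1 rfl
  have haS : a ∈ S := by
    simp only [hS, Finset.mem_filter, Finset.mem_univ, true_and]
    exact Relation.ReflTransGen.refl
  have hbS : b ∉ S := by
    simp only [hS, Finset.mem_filter, Finset.mem_univ, true_and]
    exact hc
  have h2 := h x S hxS ⟨a, haS⟩ ⟨b, hb, hbS⟩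
  obtain ⟨f, hf, hfe⟩ := Finset.exists_mem_ne (by omega : 1 < (cr K x S).card) e
  rw [mem_cr] at hf
  obtain ⟨hfK, hf1, hf2, hf3⟩ := hf
  have hfK' : f ∈ K.erase e := Finset.mem_erase.2 ⟨hfe, hfK⟩
  rcases hf3 with ⟨h1, h2⟩ | ⟨h1, h2⟩
  · apply h2
    simp only [hS, Finset.mem_filter, Finset.mem_univ, true_and] at h1 ⊢
    exact h1.tail ⟨hf1, hf2, Or.inl hfK'⟩
  · apply h1
    simp only [hS, Finset.mem_filter, Finset.mem_univ, true_and] at h2 ⊢
    exact h2.tail ⟨hf2, hf1, Or.inr hfK'⟩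

theorem strong_of_cut {K : Finset (V × V)}
    (h : ∀ U : Finset V, U.Nonempty → U ≠ Finset.univ → ∃ e ∈ K, e.1 ∈ U ∧ e.2 ∉ U) :
    Strong K := by
  classical
  intro a b
  by_contra hc
  set S : Finset V := Finset.univ.filter
    (fun c => Relation.ReflTransGen (fun x y => (x, y) ∈ K) a c) with hS
  have haS : a ∈ S := by
    simp only [hS, Finset.mem_filter, Finset.mem_univ, true_and]
    exact Relation.ReflTransGen.refl
  have hbS : b ∉ S := by
    simp only [hS, Finset.mem_filter, Finset.mem_univ, true_and]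
    exact hc
  obtain ⟨e, he, h1, h2⟩ := h S ⟨a, haS⟩ (fun h => hbS (h ▸ Finset.mem_univ b))
  apply h2
  simp only [hS, Finset.mem_filter, Finset.mem_univ, true_and] at h1 ⊢
  exact h1.tail he

theorem cut_of_strong {K : Finset (V × V)} (h : Strong K) {U : Finset V} {a b : V}
    (ha : a ∈ U) (hb : b ∉ U) : ∃ e ∈ K, e.1 ∈ U ∧ e.2 ∉ U := by
  by_contra hc
  push Not at hc
  have key : ∀ c, Relation.ReflTransGen (fun x y => (x, y) ∈ K) a c → c ∈ U := by
    intro c hac
    induction hac with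
    | refl => exact ha
    | @tail c d _ hcd ih => exact hc _ hcd ih
  exact hb (key b (h a b))

theorem two_arcs {A : Finset (V × V)} (h0 : Strong A) (h1 : ∀ e ∈ A, Strong (A.erase e))
    {U : Finset V} {a b : V} (ha : a ∈ U) (hb : b ∉ U) :
    ∃ e ∈ A, ∃ f ∈ A, e ≠ f ∧ (e.1 ∈ U ∧ e.2 ∉ U) ∧ (f.1 ∈ U ∧ f.2 ∉ U) := by
  obtain ⟨e, he, he'⟩ := cut_of_strong h0 ha hb
  obtain ⟨f, hf, hf'⟩ := cut_of_strong (h1 e he) ha hb
  rw [Finset.mem_erase] at hf
  exact ⟨e, he, f, hf.2, Ne.symm hf.1, he', hf'⟩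

/-- Incidence vectors. -/
def vec (a b : V) : V → ℚ := if a = b then Pi.single a 1 else Pi.single a 1 - Pi.single b 1

/-- Forests. -/
def F (s t : V × V → V) (T : Finset (V × V)) : Prop :=
  LinearIndepOn ℚ (fun e : V × V => vec (s e) (t e)) (T : Set (V × V))

omit [Fintype V] in
theorem F_mono (s t : V × V → V) {T T' : Finset (V × V)} (h : T ⊆ T') (hT : F s t T') :
    F s t T := LinearIndepOn.mono hT (by exact_mod_cast h)

omit [Fintype V] in
theorem F_insert (s t : V × V → V) (T : Finset (V × V)) (e : V × V) (hT : F s t T)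
    (φ : (V → ℚ) →ₗ[ℚ] ℚ) (h0 : ∀ f ∈ T, φ (vec (s f) (t f)) = 0)
    (h1 : φ (vec (s e) (t e)) ≠ 0) : F s t (insert e T) := by
  unfold F
  rw [Finset.coe_insert]
  refine LinearIndepOn.insert hT ?_
  intro hmem
  apply h1
  have : Submodule.span ℚ ((fun e : V × V => vec (s e) (t e)) '' (T : Set (V × V))) ≤
      LinearMap.ker φ := by
    rw [Submodule.span_le]
    rintro _ ⟨f, hf, rfl⟩
    exact h0 f hf
  exact this hmem

/-- The functional summing over `S`. -/
def fn (S : Finset V) : (V → ℚ) →ₗ[ℚ] ℚ where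
  toFun g := ∑ v ∈ S, g v
  map_add' g h := by simp [Finset.sum_add_distrib]
  map_smul' c g := by simp [Finset.mul_sum]

omit [Fintype V] in
theorem fn_single (S : Finset V) (a : V) :
    fn S (Pi.single a (1 : ℚ)) = if a ∈ S then 1 else 0 := by
  simp [fn, Pi.single_apply]

omit [Fintype V] in
theorem fn_vec (S : Finset V) (a b : V) (hab : a ≠ b) :
    fn S (vec a b) = (if a ∈ S then 1 else 0) - (if b ∈ S then 1 else 0) := by
  rw [vec, if_neg hab, map_sub, fn_single, fn_single]

theorem tree (s t : V × V → V) (hl : ∀ e ∈ (Finset.univ : Finset (V × V)), s e = t e → e.1 = e.2)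
    (C : Finset (V × V)) (hC : ∀ v, (v, v) ∉ C) (r : V)
    (h : ∀ U : Finset V, U.Nonempty → r ∉ U → ∃ e ∈ C, s e ∈ U ∧ t e ∉ U) :
    ∃ T ⊆ C, T.card + 1 = Fintype.card V ∧
      (∀ U : Finset V, U.Nonempty → r ∉ U → ∃ e ∈ T, s e ∈ U ∧ t e ∉ U) ∧ F s t T := by
  have hne : ∀ e ∈ C, s e ≠ t e := by
    intro e he h
    have := hl e (Finset.mem_univ _) h
    apply hC e.1
    have : e = (e.1, e.1) := Prod.ext rfl this.symm
    rwa [← this]
  have key : ∀ k, k < Fintype.card V → ∃ (S : Finset V) (T : Finset (V × V)), r ∈ S ∧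
      S.card = k + 1 ∧ T ⊆ C ∧ T.card = k ∧
      (∀ U : Finset V, r ∉ U → (U ∩ S).Nonempty → ∃ e ∈ T, s e ∈ U ∧ t e ∉ U) ∧
      F s t T ∧ ∀ e ∈ T, s e ∈ S ∧ t e ∈ S := by
    intro k
    induction k with
    | zero =>
      intro _
      refine ⟨{r}, ∅, by simp, by simp, by simp, by simp, ?_, ?_, by simp⟩
      · rintro U hU ⟨x, hx⟩
        rw [Finset.mem_inter, Finset.mem_singleton] at hx
        exact absurd (hx.2 ▸ hx.1) hU
      · unfold F
        rw [Finset.coe_empty]
        exact linearIndepOn_empty _ _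
    | succ k ih =>
      intro hk
      obtain ⟨S, T, hr, hS, hTC, hT, hcut, hF, hTS⟩ := ih (by omega)
      have hSc : (Sᶜ : Finset V).Nonempty := by
        rw [← Finset.card_pos, Finset.card_compl]
        omega
      obtain ⟨e, heC, he1, he2⟩ := h Sᶜ hSc (by simpa using hr)
      rw [Finset.mem_compl] at he1
      rw [Finset.mem_compl, not_not] at he2
      have heT : e ∉ T := fun h => he1 (hTS e h).1
      refine ⟨insert (s e) S, insert e T, Finset.mem_insert_of_mem hr, ?_, ?_, ?_, ?_, ?_, ?_⟩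
      · rw [Finset.card_insert_of_notMem he1, hS]
      · exact Finset.insert_subset heC hTC
      · rw [Finset.card_insert_of_notMem heT, hT]
      · intro U hU hne'
        by_cases hUS : (U ∩ S).Nonempty
        · obtain ⟨f, hf, hf'⟩ := hcut U hU hUS
          exact ⟨f, Finset.mem_insert_of_mem hf, hf'⟩
        · rw [Finset.not_nonempty_iff_eq_empty] at hUS
          obtain ⟨x, hx⟩ := hne'
          rw [Finset.mem_inter, Finset.mem_insert] at hx
          have hxe : x = s e := by
            rcases hx.2 with h | h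
            · exact h
            · exact absurd (Finset.mem_inter.2 ⟨hx.1, h⟩) (by rw [hUS]; simp)
          refine ⟨e, Finset.mem_insert_self _ _, hxe ▸ hx.1, ?_⟩
          intro h
          have : t e ∈ U ∩ S := Finset.mem_inter.2 ⟨h, he2⟩
          rw [hUS] at this
          simp at this
      · refine F_insert s t T e hF (fn {s e}) ?_ ?_
        · intro f hf
          rw [fn_vec _ _ _ (hne f (hTC hf))]
          have h1 := hTS f hf
          have h2 : s f ≠ s e := fun h => he1 (h ▸ h1.1)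
          have h3 : t f ≠ s e := fun h => he1 (h ▸ h1.2)
          simp [h2, h3]
        · rw [fn_vec _ _ _ (hne e heC)]
          simp [Ne.symm (hne e heC)]
      · intro f hf
        rw [Finset.mem_insert] at hf
        rcases hf with rfl | hf
        · exact ⟨Finset.mem_insert_self _ _, Finset.mem_insert_of_mem he2⟩
        · exact ⟨Finset.mem_insert_of_mem (hTS f hf).1, Finset.mem_insert_of_mem (hTS f hf).2⟩
  have hpos : 0 < Fintype.card V := Fintype.card_pos_iff.2 ⟨r⟩
  obtain ⟨S, T, hr, hS, hTC, hT, hcut, hF, hTS⟩ := key (Fintype.card V - 1) (by omega)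
  have hSu : S = Finset.univ := by
    rw [← Finset.card_eq_iff_eq_univ]; omega
  refine ⟨T, hTC, by omega, ?_, hF⟩
  intro U hU hrU
  exact hcut U hrU (by rw [hSu, Finset.inter_univ]; exact hU)

theorem F_card (I : Finset (V × V)) (x y : V) (hyx : y ≠ x)
    (hI : F Prod.fst Prod.snd I) (hl : ∀ f ∈ I, f.1 ≠ f.2)
    (hx : ∀ f ∈ I, f.1 ≠ x ∧ f.2 ≠ x) : I.card + 2 ≤ Fintype.card V := by
  have hxx : vec x x = Pi.single x (1 : ℚ) := by simp [vec]
  have hyy : vec y y = Pi.single y (1 : ℚ) := by simp [vec]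
  have h1 : F Prod.fst Prod.snd (insert (x, x) I) := by
    refine F_insert _ _ I (x, x) hI (fn {x}) ?_ ?_
    · intro f hf
      rw [fn_vec _ _ _ (hl f hf)]
      simp [(hx f hf).1, (hx f hf).2]
    · change fn {x} (vec x x) ≠ 0
      rw [hxx, fn_single]
      simp
  have h2 : F Prod.fst Prod.snd (insert (y, y) (insert (x, x) I)) := by
    refine F_insert _ _ _ (y, y) h1 (fn (Finset.univ.erase x)) ?_ ?_
    · intro f hf
      rw [Finset.mem_insert] at hf
      rcases hf with rfl | hf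
      · change fn _ (vec x x) = 0
        rw [hxx, fn_single]
        simp
      · rw [fn_vec _ _ _ (hl f hf)]
        simp [(hx f hf).1, (hx f hf).2]
    · change fn _ (vec y y) ≠ 0
      rw [hyy, fn_single]
      simp [hyx]
  have hxI : (x, x) ∉ I := fun h => hl _ h rfl
  have hyI : (y, y) ∉ insert (x, x) I := by
    rw [Finset.mem_insert, not_or]
    exact ⟨fun h => hyx (congrArg Prod.fst h), fun h => hl _ h rfl⟩
  have h3 : (insert (y, y) (insert (x, x) I)).card ≤ Fintype.card V := by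
    have := LinearIndependent.fintype_card_le_finrank (R := ℚ) h2
    simpa using this
  rw [Finset.card_insert_of_notMem hyI, Finset.card_insert_of_notMem hxI] at h3
  exact h3

theorem sum_avoid (T : Finset (V × V)) (hl : ∀ f ∈ T, f.1 ≠ f.2) :
    ∑ x : V, (T.filter fun f => f.1 ≠ x ∧ f.2 ≠ x).card + 2 * T.card =
      Fintype.card V * T.card := by
  have h1 : ∑ x : V, (T.filter fun f => f.1 ≠ x ∧ f.2 ≠ x).card =
      ∑ f ∈ T, (Finset.univ.filter fun x : V => f.1 ≠ x ∧ f.2 ≠ x).card := by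
    simp only [Finset.card_filter]
    rw [Finset.sum_comm]
  have h2 : ∀ f ∈ T, (Finset.univ.filter fun x : V => f.1 ≠ x ∧ f.2 ≠ x).card + 2 =
      Fintype.card V := by
    intro f hf
    have : (Finset.univ.filter fun x : V => f.1 ≠ x ∧ f.2 ≠ x) =
        Finset.univ \ {f.1, f.2} := by
      ext x
      simp only [Finset.mem_filter, Finset.mem_univ, true_and, Finset.mem_sdiff,
        Finset.mem_insert, Finset.mem_singleton, not_or]
      constructor
      · rintro ⟨h1, h2⟩; exact ⟨fun h => h1 h.symm, fun h => h2 h.symm⟩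
      · rintro ⟨h1, h2⟩; exact ⟨fun h => h1 h.symm, fun h => h2 h.symm⟩
    rw [this]
    have h3 := Finset.card_sdiff_add_card_eq_card
      (Finset.subset_univ ({f.1, f.2} : Finset V))
    rw [Finset.card_pair (hl f hf), Finset.card_univ] at h3
    exact h3
  rw [h1, mul_comm 2, ← smul_eq_mul, ← Finset.sum_const, ← Finset.sum_add_distrib,
    Finset.sum_congr rfl h2, Finset.sum_const, smul_eq_mul, mul_comm]

/-- The invariant. -/
structure Inv (K : Finset (V × V)) (I J : V → Finset (V × V)) (base : ℕ) : Prop where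
  subI : ∀ x, I x ⊆ K
  subJ : ∀ x, J x ⊆ K
  disj : ∀ x, Disjoint (I x) (J x)
  FI : ∀ x, F Prod.fst Prod.snd (I x)
  FJ : ∀ x, F Prod.fst Prod.snd (J x)
  avI : ∀ x, ∀ f ∈ I x, f.1 ≠ x ∧ f.2 ≠ x
  avJ : ∀ x, ∀ f ∈ J x, f.1 ≠ x ∧ f.2 ≠ x
  cnt : K.card + base ≤ 4 * (Fintype.card V - 1) + ∑ x, ((I x).card + (J x).card)

theorem Inv.symm {K : Finset (V × V)} {I J : V → Finset (V × V)} {base : ℕ}
    (h : Inv K I J base) : Inv K J I base where
  subI := h.subJ
  subJ := h.subI
  disj := fun x => (h.disj x).symm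
  FI := h.FJ
  FJ := h.FI
  avI := h.avJ
  avJ := h.avI
  cnt := by
    have := h.cnt
    simp_rw [add_comm (J _).card]
    exact this

theorem Inv.step {K : Finset (V × V)} {I J : V → Finset (V × V)} {base : ℕ}
    (h : Inv K I J base) (hl : ∀ f ∈ K, f.1 ≠ f.2) (f : V × V) (hf : f ∉ K) (hfl : f.1 ≠ f.2)
    (x : V) (S : Finset V)
    (hfx : f.1 ≠ x ∧ f.2 ≠ x) (hfS : (f.1 ∈ S ∧ f.2 ∉ S) ∨ (f.1 ∉ S ∧ f.2 ∈ S))
    (hI : ∀ g ∈ I x, ¬ ((g.1 ∈ S ∧ g.2 ∉ S) ∨ (g.1 ∉ S ∧ g.2 ∈ S))) :
    Inv (insert f K) (Function.update I x (insert f (I x))) J base := by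
  have hsub : K ⊆ insert f K := Finset.subset_insert _ _
  have hfI : f ∉ I x := fun h' => hf (h.subI x h')
  have hfJ : f ∉ J x := fun h' => hf (h.subJ x h')
  refine ⟨?_, fun y => (h.subJ y).trans hsub, ?_, ?_, h.FJ, ?_, h.avJ, ?_⟩
  · intro y
    by_cases hy : y = x
    · subst hy
      rw [Function.update_self]
      exact Finset.insert_subset_insert _ (h.subI y)
    · rw [Function.update_of_ne hy]
      exact (h.subI y).trans hsub
  · intro y
    by_cases hy : y = x
    · subst hy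
      rw [Function.update_self, Finset.disjoint_insert_left]
      exact ⟨hfJ, h.disj y⟩
    · rw [Function.update_of_ne hy]
      exact h.disj y
  · intro y
    by_cases hy : y = x
    · subst hy
      rw [Function.update_self]
      refine F_insert _ _ _ f (h.FI y) (fn S) ?_ ?_
      · intro g hg
        rw [fn_vec _ _ _ (hl g (h.subI y hg))]
        have := hI g hg
        by_cases h1 : g.1 ∈ S <;> by_cases h2 : g.2 ∈ S <;> simp_all
      · rw [fn_vec _ _ _ hfl]
        rcases hfS with ⟨h1, h2⟩ | ⟨h1, h2⟩ <;> simp [h1, h2]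
    · rw [Function.update_of_ne hy]
      exact h.FI y
  · intro y g hg
    by_cases hy : y = x
    · subst hy
      rw [Function.update_self, Finset.mem_insert] at hg
      rcases hg with rfl | hg
      · exact hfx
      · exact h.avI y g hg
    · rw [Function.update_of_ne hy] at hg
      exact h.avI y g hg
  · rw [Finset.card_insert_of_notMem hf]
    have h1 : ∑ y, ((Function.update I x (insert f (I x)) y).card + (J y).card) =
        ∑ y, ((I y).card + (J y).card) + 1 := by
      rw [← Finset.add_sum_erase Finset.univ _ (Finset.mem_univ x),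
        ← Finset.add_sum_erase Finset.univ (fun y => (I y).card + (J y).card)
          (Finset.mem_univ x),
        Function.update_self, Finset.card_insert_of_notMem hfI]
      have : ∑ y ∈ Finset.univ.erase x,
          ((Function.update I x (insert f (I x)) y).card + (J y).card) =
          ∑ y ∈ Finset.univ.erase x, ((I y).card + (J y).card) := by
        refine Finset.sum_congr rfl fun y hy => ?_
        rw [Function.update_of_ne (Finset.ne_of_mem_erase hy)]
      rw [this]
      ring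
    rw [h1]
    have := h.cnt
    omega

theorem grow {A : Finset (V × V)} (hA : P A) (hl : ∀ f ∈ A, f.1 ≠ f.2) (base : ℕ) (k : ℕ) :
    ∀ K ⊆ A, ∀ I J, Inv K I J base → (A \ K).card = k →
      ∃ K', K ⊆ K' ∧ K' ⊆ A ∧ P K' ∧ ∃ I J, Inv K' I J base := by
  induction k using Nat.strong_induction_on with
  | _ k ih =>
    intro K hKA I J hInv hk
    by_cases hP : P K
    · exact ⟨K, Finset.Subset.refl _, hKA, hP, I, J, hInv⟩
    · unfold P at hP
      push Not at hP
      obtain ⟨x, S, hxS, hS, hy, hlt⟩ := hP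
      have h2 := hA x S hxS hS hy
      obtain ⟨f, hf, hfK⟩ : ∃ f ∈ cr A x S, f ∉ K := by
        by_contra hc
        push Not at hc
        have : cr A x S ⊆ cr K x S := by
          intro f hf
          exact mem_cr.2 ⟨hc f hf, (mem_cr.1 hf).2⟩
        have := Finset.card_le_card this
        omega
      rw [mem_cr] at hf
      have hKl : ∀ f ∈ K, f.1 ≠ f.2 := fun f hf => hl f (hKA hf)
      have hsub' : insert f K ⊆ A := Finset.insert_subset hf.1 hKA
      have hcard : (A \ insert f K).card < k := by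
        rw [← hk]
        apply Finset.card_lt_card
        rw [Finset.ssubset_iff_of_subset (Finset.sdiff_subset_sdiff (Finset.Subset.refl _)
          (Finset.subset_insert _ _))]
        exact ⟨f, Finset.mem_sdiff.2 ⟨hf.1, hfK⟩, by simp⟩
      by_cases hI : ∀ g ∈ I x, ¬ ((g.1 ∈ S ∧ g.2 ∉ S) ∨ (g.1 ∉ S ∧ g.2 ∈ S))
      · have h' := hInv.step hKl f hfK (hl f hf.1) x S ⟨hf.2.1, hf.2.2.1⟩ hf.2.2.2 hI
        obtain ⟨K', h1, h2, h3, h4⟩ := ih _ hcard _ hsub' _ _ h' rfl
        exact ⟨K', (Finset.subset_insert _ _).trans h1, h2, h3, h4⟩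
      · have hJ : ∀ g ∈ J x, ¬ ((g.1 ∈ S ∧ g.2 ∉ S) ∨ (g.1 ∉ S ∧ g.2 ∈ S)) := by
          intro g hg hgS
          push Not at hI
          obtain ⟨g', hg', hg'S⟩ := hI
          have hne : g' ≠ g := by
            rintro rfl
            exact Finset.disjoint_left.1 (hInv.disj x) hg' hg
          have e1 : g ∈ cr K x S := mem_cr.2 ⟨hInv.subJ x hg, (hInv.avJ x g hg).1,
            (hInv.avJ x g hg).2, hgS⟩
          have e2 : g' ∈ cr K x S := by
            refine mem_cr.2 ⟨hInv.subI x hg', (hInv.avI x g' hg').1,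
              (hInv.avI x g' hg').2, ?_⟩
            by_contra hc
            exact hg'S |> fun h => by tauto
          have := Finset.one_lt_card.2 ⟨g', e2, g, e1, hne⟩
          omega
        have h' := hInv.symm.step hKl f hfK (hl f hf.1) x S ⟨hf.2.1, hf.2.2.1⟩ hf.2.2.2 hJ
        obtain ⟨K', h1, h2, h3, h4⟩ := ih _ hcard _ hsub' _ _ h' rfl
        exact ⟨K', (Finset.subset_insert _ _).trans h1, h2, h3, h4⟩

open Pool.Agent.H470R3 in
theorem two_trees (s t : V × V → V) (hl : ∀ e ∈ (Finset.univ : Finset (V × V)), s e = t e → e.1 = e.2)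
    (A : Finset (V × V)) (hA : ∀ v, (v, v) ∉ A) (r : V)
    (h : ∀ U : Finset V, U.Nonempty → r ∉ U →
      ∃ e ∈ A, ∃ f ∈ A, e ≠ f ∧ (s e ∈ U ∧ t e ∉ U) ∧ (s f ∈ U ∧ t f ∉ U)) :
    ∃ T0 ⊆ A, ∃ T1 ⊆ A, Disjoint T0 T1 ∧ T0.card + 1 = Fintype.card V ∧
      T1.card + 1 = Fintype.card V ∧ F s t T0 ∧ F s t T1 ∧
      (∀ U : Finset V, U.Nonempty → r ∉ U → ∃ e ∈ T0, s e ∈ U ∧ t e ∉ U) ∧
      (∀ U : Finset V, U.Nonempty → r ∉ U → ∃ e ∈ T1, s e ∈ U ∧ t e ∉ U) := by
  obtain ⟨c, hc⟩ := edmonds (ι := Fin 2) s t (fun _ => {r}) A (by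
    intro U hU
    by_cases hr : r ∈ U
    · have : miss (fun _ : Fin 2 => ({r} : Finset V)) U = 0 := by
        unfold miss
        rw [Finset.card_eq_zero, Finset.filter_eq_empty_iff]
        intro i _ hd
        exact Finset.disjoint_left.1 hd (Finset.mem_singleton_self r) hr
      omega
    · have h1 : miss (fun _ : Fin 2 => ({r} : Finset V)) U ≤ 2 := by
        unfold miss
        exact (Finset.card_le_univ _).trans (by simp)
      refine h1.trans ?_
      obtain ⟨e, he, f, hf, hne, he', hf'⟩ := h U hU hr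
      exact Finset.one_lt_card.2 ⟨e, mem_cut.2 ⟨he, he'⟩, f, mem_cut.2 ⟨hf, hf'⟩, hne⟩)
  have hcol : ∀ i : Fin 2, ∃ T ⊆ A.filter (fun e => c e = i), T.card + 1 = Fintype.card V ∧
      (∀ U : Finset V, U.Nonempty → r ∉ U → ∃ e ∈ T, s e ∈ U ∧ t e ∉ U) ∧ F s t T := by
    intro i
    refine tree s t hl _ (fun v hv => hA v (Finset.mem_of_mem_filter _ hv)) r ?_
    intro U hU hr
    obtain ⟨e, he, hei, h1, h2⟩ := hc i U hU (by simpa using hr)
    exact ⟨e, Finset.mem_filter.2 ⟨he, hei⟩, h1, h2⟩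
  obtain ⟨T0, hT0, c0, u0, f0⟩ := hcol 0
  obtain ⟨T1, hT1, c1, u1, f1⟩ := hcol 1
  refine ⟨T0, hT0.trans (Finset.filter_subset _ _), T1, hT1.trans (Finset.filter_subset _ _),
    ?_, c0, c1, f0, f1, u0, u1⟩
  rw [Finset.disjoint_left]
  intro e h0 h1
  have e0 := (Finset.mem_filter.1 (hT0 h0)).2
  have e1 := (Finset.mem_filter.1 (hT1 h1)).2
  rw [e0] at e1
  exact absurd e1 (by decide)

/-- Every minimal 2-edge-strongly biconnected digraph on `n ≥ 3` vertices has at most `6n - 8`
arcs; in particular at most `7n` arcs. -/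
theorem result {V : Type} [Fintype V] [DecidableEq V] (A : Finset (V × V))
    (hl : ∀ v : V, (v, v) ∉ A) (hA : MinimalTwoEdgeSB A) :
    A.card + 8 ≤ 6 * Fintype.card V := by
  obtain ⟨⟨hSB, hn, hE⟩, hmin⟩ := hA
  have hle : ∀ e, ∀ v : V, (v, v) ∉ A.erase e := fun e v h => hl v (Finset.mem_of_mem_erase h)
  have hlf : ∀ f ∈ A, f.1 ≠ f.2 := by
    intro f hf h
    apply hl f.1
    have : f = (f.1, f.1) := Prod.ext rfl h.symm
    rwa [← this]
  rw [sb_iff A hl hn] at hSB
  have hE' : ∀ e ∈ A, Strong (A.erase e) ∧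
      ∀ w x y : V, x ≠ w → y ≠ w → R (A.erase e) w x y :=
    fun e he => (sb_iff _ (hle e) hn).1 (hE e he)
  have hPA : P A := P_of hSB.2 (fun e he => (hE' e he).2)
  have hpos : 0 < Fintype.card V := by omega
  obtain ⟨r⟩ : Nonempty V := Fintype.card_pos_iff.1 hpos
  obtain ⟨T0, hT0, T1, hT1, hd, c0, c1, F0, F1, u0, u1⟩ := two_trees Prod.fst Prod.snd
    (fun e _ h => h) A hl r (by
      rintro U ⟨a, ha⟩ hr
      exact two_arcs hSB.1 (fun e he => (hE' e he).1) ha hr)
  obtain ⟨T2, hT2, T3, hT3, hd', c2, c3, F2, F3, u2, u3⟩ := two_trees Prod.snd Prod.fst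
    (fun e _ h => h.symm) A hl r (by
      rintro U ⟨a, ha⟩ hr
      obtain ⟨e, he, f, hf, hne, h1, h2⟩ := two_arcs (U := Uᶜ) hSB.1
        (fun e he => (hE' e he).1) (a := r) (b := a) (by simpa using hr) (by simpa using ha)
      simp only [Finset.mem_compl, not_not] at h1 h2
      exact ⟨e, he, f, hf, hne, ⟨h1.2, h1.1⟩, ⟨h2.2, h2.1⟩⟩)
  set H : Finset (V × V) := (T0 ∪ T1) ∪ (T2 ∪ T3) with hH
  have hHA : H ⊆ A := Finset.union_subset (Finset.union_subset hT0 hT1)
    (Finset.union_subset hT2 hT3)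
  have hHc : H.card ≤ 4 * (Fintype.card V - 1) := by
    have h1 : H.card ≤ (T0 ∪ T1).card + (T2 ∪ T3).card :=
      Finset.card_union_le (T0 ∪ T1) (T2 ∪ T3)
    have h2 := Finset.card_union_le T0 T1
    have h3 := Finset.card_union_le T2 T3
    omega
  have hstrong : ∀ e, Strong (H.erase e) := by
    intro e
    apply strong_of_cut
    intro U hU hUu
    by_cases hr : r ∈ U
    · have hUc : (Uᶜ : Finset V).Nonempty := by
        rw [Finset.nonempty_iff_ne_empty, Ne, Finset.compl_eq_empty_iff]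
        exact hUu
      obtain ⟨f, hf, hf1, hf2⟩ := u2 Uᶜ hUc (by simpa using hr)
      obtain ⟨g, hg, hg1, hg2⟩ := u3 Uᶜ hUc (by simpa using hr)
      simp only [Finset.mem_compl, not_not] at hf1 hf2 hg1 hg2
      by_cases hfe : f = e
      · refine ⟨g, Finset.mem_erase.2 ⟨?_, by simp [hH, hg]⟩, hg2, hg1⟩
        rintro rfl
        subst hfe
        exact Finset.disjoint_left.1 hd' hf hg
      · exact ⟨f, Finset.mem_erase.2 ⟨hfe, by simp [hH, hf]⟩, hf2, hf1⟩
    · obtain ⟨f, hf, hf1, hf2⟩ := u0 U hU hr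
      obtain ⟨g, hg, hg1, hg2⟩ := u1 U hU hr
      by_cases hfe : f = e
      · refine ⟨g, Finset.mem_erase.2 ⟨?_, by simp [hH, hg]⟩, hg1, hg2⟩
        rintro rfl
        subst hfe
        exact Finset.disjoint_left.1 hd hf hg
      · exact ⟨f, Finset.mem_erase.2 ⟨hfe, by simp [hH, hf]⟩, hf1, hf2⟩
  set base : ℕ := ∑ x : V, ((T0.filter fun f => f.1 ≠ x ∧ f.2 ≠ x).card +
    (T1.filter fun f => f.1 ≠ x ∧ f.2 ≠ x).card) with hbase
  have hInv : Inv H (fun x => T0.filter fun f => f.1 ≠ x ∧ f.2 ≠ x)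
      (fun x => T1.filter fun f => f.1 ≠ x ∧ f.2 ≠ x) base := by
    refine ⟨?_, ?_, ?_, ?_, ?_, ?_, ?_, ?_⟩
    · intro x
      exact (Finset.filter_subset _ _).trans
        (Finset.subset_union_left.trans Finset.subset_union_left)
    · intro x
      exact (Finset.filter_subset _ _).trans
        (Finset.subset_union_right.trans Finset.subset_union_left)
    · intro x
      exact Finset.disjoint_filter_filter hd
    · intro x
      exact F_mono _ _ (Finset.filter_subset _ _) F0
    · intro x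
      exact F_mono _ _ (Finset.filter_subset _ _) F1
    · intro x f hf
      exact (Finset.mem_filter.1 hf).2
    · intro x f hf
      exact (Finset.mem_filter.1 hf).2
    · exact Nat.add_le_add_right hHc _
  obtain ⟨K, hHK, hKA, hPK, I, J, hK⟩ := grow hPA hlf base _ H hHA _ _ hInv rfl
  have hKeq : A = K := by
    by_contra hne
    obtain ⟨e, he, heK⟩ : ∃ e ∈ A, e ∉ K := by
      by_contra hc
      push Not at hc
      exact hne (Finset.Subset.antisymm hc hKA)
    have hsub : K ⊆ A.erase e := fun x hx =>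
      Finset.mem_erase.2 ⟨fun h => heK (h ▸ hx), hKA hx⟩
    refine hmin e he ⟨?_, hn, ?_⟩
    · rw [sb_iff _ (hle e) hn]
      refine ⟨strong_mono ((Finset.erase_subset e H).trans (hHK.trans hsub)) (hstrong e), ?_⟩
      intro w x y hx hy
      exact R_mono ((Finset.erase_subset e K).trans hsub) w (R_of_P hPK e w x y hx hy)
    · intro e' _
      rw [sb_iff _ (fun v h => hle e v (Finset.mem_of_mem_erase h)) hn]
      refine ⟨strong_mono (Finset.erase_subset_erase e' (hHK.trans hsub)) (hstrong e'), ?_⟩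
      intro w x y hx hy
      exact R_mono (Finset.erase_subset_erase e' hsub) w (R_of_P hPK e' w x y hx hy)
  subst hKeq
  have hcnt := hK.cnt
  have hI : ∀ x : V, (I x).card + (J x).card + 4 ≤ 2 * Fintype.card V := by
    intro x
    obtain ⟨y, hy⟩ := Fintype.exists_ne_of_one_lt_card (by omega : 1 < Fintype.card V) x
    have h1 := F_card (I x) x y hy (hK.FI x) (fun f hf => hlf f (hK.subI x hf)) (hK.avI x)
    have h2 := F_card (J x) x y hy (hK.FJ x) (fun f hf => hlf f (hK.subJ x hf)) (hK.avJ x)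
    omega
  have hsum : ∑ x : V, ((I x).card + (J x).card) + 4 * Fintype.card V ≤
      2 * Fintype.card V * Fintype.card V := by
    have : ∑ x : V, ((I x).card + (J x).card + 4) ≤ ∑ _x : V, 2 * Fintype.card V :=
      Finset.sum_le_sum fun x _ => hI x
    rw [Finset.sum_add_distrib, Finset.sum_const, Finset.sum_const, Finset.card_univ,
      smul_eq_mul, smul_eq_mul] at this
    nlinarith
  have hb : base + 2 * (T0.card + T1.card) = Fintype.card V * (T0.card + T1.card) := by
    rw [hbase, Finset.sum_add_distrib]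
    have h1 := sum_avoid T0 (fun f hf => hlf f (hT0 hf))
    have h2 := sum_avoid T1 (fun f hf => hlf f (hT1 hf))
    linarith
  obtain ⟨m, hm⟩ : ∃ m, Fintype.card V = m + 1 := ⟨Fintype.card V - 1, by omega⟩
  rw [hm] at c0 c1 hcnt hsum hb ⊢
  have e0 : T0.card = m := by omega
  have e1 : T1.card = m := by omega
  rw [e0, e1] at hb
  rw [Nat.add_sub_cancel] at hcnt
  nlinarith

end Pool.Agent.Results.MP_93593e_co.ArcBound
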